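import Pool.Agent.T9h90.SP.Spec

set_option autoImplicit false

/-! (HM) thinning. -/

namespace Pool.Agent.T9h24.SP

open Pool.Agent.Helper617.RM Pool.Agent.T9h90.SP

universe u

theorem df_c {N : L2Structure.{u}} [IsModelRCA0 N] {f : N.M → N.M → Bool} (hf : DF N f)
    (c : Bool) : D0 (fun v : Ctx N => f (v 0) (v 1) = c) := by
  cases c
  · exact (D0.not hf).congr fun v => by simp
  · exact hf

theorem univ_mem (N : L2Structure.{u}) [IsModelRCA0 N] : (Set.univ : Set N.M) ∈ N.Sets := by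
  have h := comp_D0 (N := N) (P := fun _ => True) D0.true
  have e : {n : N.M | True} = Set.univ := by ext; simp
  rwa [e] at h

theorem hm : S_SQ.{u} → S_RG.{u} → S_HM.{u} := by
  intro hsq hrg N _ f hf hB c H hH hu hc
  have hfc := df_c hf c
  have hK : S1 (fun v : Ctx N => v 0 ∈ H) := (D0.mem (Tm.var 0) hH).S1
  have hR : D0 (fun v : Ctx N => v 0 < v 1 ∧ ∀ z, z ≤ v 0 → (z ∈ H → f z (v 1) = c)) := by
    refine D0.and (D0.lt (Tm.var 0) (Tm.var 1))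
      (D0.ballLe (Tm.var 0) (D0.imp (D0.mem (Tm.var 0) hH) ?_))
    exact D0.rel (R := fun x y => f x y = c) hfc (Tm.var 0) (Tm.var 2)
  have hC : D0 (fun v : Ctx N => v 0 ∈ H ∧ (v 1 ∈ H ∧ ¬ f (v 0) (v 1) = c)) :=
    D0.and (D0.mem (Tm.var 0) hH) (D0.and (D0.mem (Tm.var 1) hH) hfc.not)
  obtain ⟨a0, ha0, _⟩ := hu 0
  have hstep : ∀ x : N.M, x ∈ H → ∃ y, y ∈ H ∧ (x < y ∧ ∀ z, z ≤ x → (z ∈ H → f z y = c)) := by
    intro x _
    obtain ⟨b, hb⟩ := hB (fun j t => j ∈ H ∧ (t ∈ H ∧ ¬ f j t = c)) hC (x + 1) (by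
      intro j _
      by_cases hj : j ∈ H
      · obtain ⟨b, hb⟩ := hc j hj
        exact ⟨b, fun t ht h => h.2.2 (hb t h.2.1 ht)⟩
      · exact ⟨0, fun t _ h => hj h.1⟩)
    obtain ⟨y, hy, hby⟩ := hu (max b x)
    refine ⟨y, hy, lt_of_le_of_lt (le_max_right _ _) hby, fun z hz hzH => ?_⟩
    by_contra hne
    exact hb y ((le_max_left _ _).trans hby.le) z (lt_add_one_iff'.2 hz) ⟨hzH, hy, hne⟩
  obtain ⟨g, hg, hg2⟩ := hsq N (fun x => x ∈ H)
    (fun x y => x < y ∧ ∀ z, z ≤ x → (z ∈ H → f z y = c)) hK hR.S1 ⟨a0, ha0⟩ hstep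
  obtain ⟨hmono, hle, hrange⟩ := hrg N g hg (fun n => (hg2 n).2.1)
  obtain ⟨hmem, hunb⟩ := hrange Set.univ (univ_mem N)
  refine ⟨_, hmem, ?_, hunb fun b => ⟨b + 1, trivial, lt_add_one_iff'.2 le_rfl⟩, ?_⟩
  · rintro y ⟨i, _, rfl⟩
    exact (hg2 i).1
  · rintro x ⟨i, _, rfl⟩ y ⟨j, _, rfl⟩ hxy
    have hij : i < j := by
      by_contra hn
      rcases lt_or_eq_of_le (not_lt.1 hn) with h | h
      · exact absurd hxy (not_lt_of_gt (hmono _ _ h))
      · rw [h] at hxy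
        exact lt_irrefl _ hxy
    rcases eq_zero_or_succ j with h | ⟨j', h⟩
    · subst h
      exact absurd hij (not_lt_of_ge (zero_le' i))
    · subst h
      have hij' : i ≤ j' := lt_add_one_iff'.1 hij
      refine (hg2 j').2.2 (g i) ?_ (hg2 i).1
      rcases lt_or_eq_of_le hij' with h | h
      · exact (hmono _ _ h).le
      · rw [h]

end Pool.Agent.T9h24.SP
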